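import Pool.Agent.Helper42.DB.Goals2

set_option autoImplicit false

/-! Packet CLOSE of MP_48f005_an. -/

namespace Pool.Agent.Helper42.DB.PkCLOSE

open Set Filter Topology

variable {S : Sys}

/-- small `1 - cos` forces a small angle -/
lemma ang_small {x c : ℝ} (hx : |x| < Real.pi + 1 / 4) (hc : 1 - Real.cos x ≤ c) (hc1 : c < 1) :
    x ^ 2 ≤ Real.pi ^ 2 / 2 * c := by
  have hπ := Real.pi_gt_three
  rcases le_or_gt |x| Real.pi with h | h
  · have h1 := Real.cos_le_one_sub_mul_cos_sq h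
    have h2 : 2 / Real.pi ^ 2 * x ^ 2 ≤ c := by linarith
    have h3 : 0 < Real.pi ^ 2 := by positivity
    have h4 : x ^ 2 = Real.pi ^ 2 / 2 * (2 / Real.pi ^ 2 * x ^ 2) := by field_simp
    rw [h4]
    exact mul_le_mul_of_nonneg_left h2 (by positivity)
  · exfalso
    have h1 : Real.cos x = -Real.cos (|x| - Real.pi) := by
      rw [Real.cos_sub_pi, neg_neg, Real.cos_abs]
    have h2 : 0 < Real.cos (|x| - Real.pi) := by
      apply Real.cos_pos_of_mem_Ioo
      constructor <;> linarith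
    linarith

theorem thm (S : Sys) : G_ARC S → G_FLE S → G_BNE S → G_FLEN S → G_CLOSE S := by
  intro hARC hFLE hBNE hFLEN δ hδ
  rcases isEmpty_or_nonempty S.ι with hι | ⟨⟨i0⟩⟩
  · exact ⟨1, one_pos, fun n w z m k _ _ _ _ _ _ => (hι.false (z 0).i).elim⟩
  obtain ⟨hκ, hr1, _, _⟩ := hARC i0
  obtain ⟨τ, hτ, hFLEN⟩ := hFLEN δ hδ
  have hπ := Real.pi_gt_three
  rcases lt_or_ge (Real.pi / 2) δ with hδπ | hδπ
  · -- then everything is near
    refine ⟨1, one_pos, fun n w z m k _ _ _ _ _ hN => ?_⟩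
    exfalso
    apply hN
    right; right; right; right; left
    have := abs_nonneg (z k).φ
    linarith
  have hs : 0 < Real.sin δ := Real.sin_pos_of_pos_of_lt_pi hδ (by linarith)
  obtain ⟨D, hD0, hD1, hD2⟩ : ∃ D : ℝ, 0 < D ∧ D ≤ δ / 2 ∧ 2 / S.r0 * D ≤ δ / 4 := by
    have h0 := S.r0_pos
    refine ⟨min (δ / 2) (S.r0 * δ / 8), lt_min (by linarith) (by positivity), min_le_left _ _, ?_⟩
    calc 2 / S.r0 * min (δ / 2) (S.r0 * δ / 8) ≤ 2 / S.r0 * (S.r0 * δ / 8) :=
          mul_le_mul_of_nonneg_left (min_le_right _ _) (by positivity)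
      _ = δ / 4 := by field_simp; ring
  obtain ⟨c, hc0, hc1, hc2⟩ : ∃ c : ℝ, 0 < c ∧ c < 1 ∧ Real.pi ^ 2 / 2 * c ≤ (δ / 4) ^ 2 := by
    refine ⟨min (1 / 2) ((δ / 4) ^ 2 * 2 / Real.pi ^ 2), lt_min (by norm_num) (by positivity),
      lt_of_le_of_lt (min_le_left _ _) (by norm_num), ?_⟩
    calc Real.pi ^ 2 / 2 * min (1 / 2) ((δ / 4) ^ 2 * 2 / Real.pi ^ 2)
        ≤ Real.pi ^ 2 / 2 * ((δ / 4) ^ 2 * 2 / Real.pi ^ 2) :=
          mul_le_mul_of_nonneg_left (min_le_right _ _) (by positivity)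
      _ = (δ / 4) ^ 2 := by field_simp
  obtain ⟨r, hr0, hrD, hrs, hrc⟩ : ∃ r : ℝ, 0 < r ∧ S.r1 * r ≤ D ∧
      2 * S.r1 * r ≤ S.κ * Real.sin δ * D ^ 2 ∧ 4 * S.r1 * r ≤ c * τ := by
    refine ⟨min (D / S.r1) (min (S.κ * Real.sin δ * D ^ 2 / (2 * S.r1)) (c * τ / (4 * S.r1))),
      lt_min (by positivity) (lt_min (by positivity) (by positivity)), ?_, ?_, ?_⟩
    · have h := min_le_left (D / S.r1)
        (min (S.κ * Real.sin δ * D ^ 2 / (2 * S.r1)) (c * τ / (4 * S.r1)))
      rw [le_div_iff₀ hr1] at h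
      linarith
    · have h := (min_le_right (D / S.r1)
        (min (S.κ * Real.sin δ * D ^ 2 / (2 * S.r1)) (c * τ / (4 * S.r1)))).trans (min_le_left _ _)
      rw [le_div_iff₀ (by positivity)] at h
      linarith
    · have h := (min_le_right (D / S.r1)
        (min (S.κ * Real.sin δ * D ^ 2 / (2 * S.r1)) (c * τ / (4 * S.r1)))).trans (min_le_right _ _)
      rw [le_div_iff₀ (by positivity)] at h
      linarith
  refine ⟨r, hr0, ?_⟩
  intro n w z m k hkn hz hm h0 hn hN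
  have hi : ∀ j ≤ n, (z j).i = (m j).i := fun j hj => (hz.2 j hj).trans (hm.2 j hj).symm
  have hzok : ∀ j ≤ n, (z j).Ok := hz.1.1
  have hmok : ∀ j ≤ n, (m j).Ok := hm.1.1
  -- bounds of positions
  have hpos : ∀ j ≤ n, S.r0 / 2 * |(m j).u - (z j).u| ≤ ‖(m j).pos - (z j).pos‖ ∧
      ‖(m j).pos - (z j).pos‖ ≤ S.r1 * |(m j).u - (z j).u| := by
    intro j hj
    have h1 := (hARC (m j).i).2.2.1 (m j).u (Ioo_subset_Icc_self (hmok j hj).1) (z j).u
      (by rw [← hi j hj]; exact Ioo_subset_Icc_self (hzok j hj).1)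
    unfold St.pos
    rw [hi j hj]
    exact h1
  have hd0 : ‖(m 0).pos - (z 0).pos‖ ≤ S.r1 * r :=
    (hpos 0 (by omega)).2.trans (mul_le_mul_of_nonneg_left h0 hr1.le)
  have hdn : ‖(m n).pos - (z n).pos‖ ≤ S.r1 * r :=
    (hpos n le_rfl).2.trans (mul_le_mul_of_nonneg_left hn hr1.le)
  -- the monotone chain
  have hfl : ∀ j < n, Em (z (j + 1)) (m (j + 1)) = Ep (z j) (m j) +
      (len (z j) (z (j + 1)) + len (m j) (m (j + 1))) * (1 - Real.cos ((m j).th - (z j).th)) :=
    fun j hj => hFLE _ _ _ _ (hz.1.2 j hj) (hm.1.2 j hj)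
  have hfl0 : ∀ j < n, Ep (z j) (m j) ≤ Em (z (j + 1)) (m (j + 1)) := by
    intro j hj
    rw [hfl j hj]
    have h1 : 0 ≤ (len (z j) (z (j + 1)) + len (m j) (m (j + 1))) :=
      add_nonneg (norm_nonneg _) (norm_nonneg _)
    have h2 : 0 ≤ 1 - Real.cos ((m j).th - (z j).th) := by linarith [Real.cos_le_one ((m j).th - (z j).th)]
    nlinarith [mul_nonneg h1 h2]
  have hbn : ∀ j ≤ n, Em (z j) (m j) +
      2 * S.κ * (Real.cos (z j).φ + Real.cos (m j).φ) * ‖(m j).pos - (z j).pos‖ ^ 2 ≤ Ep (z j) (m j) :=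
    fun j hj => hBNE _ _ (hi j hj) (hzok j hj) (hmok j hj)
  have hbn0 : ∀ j ≤ n, Em (z j) (m j) ≤ Ep (z j) (m j) := by
    intro j hj
    have h1 := hbn j hj
    have h2 := (hzok j hj).cos_pos
    have h3 := (hmok j hj).cos_pos
    have h4 : 0 ≤ 2 * S.κ * (Real.cos (z j).φ + Real.cos (m j).φ) * ‖(m j).pos - (z j).pos‖ ^ 2 := by
      positivity
    linarith
  have hlow : ∀ j < n, -(2 * (S.r1 * r)) ≤ Ep (z j) (m j) := by
    intro j
    induction j with
    | zero =>
      intro _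
      have h1 := abs_dt_le (ee (m 0).th - ee (z 0).th) ((m 0).pos - (z 0).pos)
      have h2 : ‖ee (m 0).th - ee (z 0).th‖ ≤ 2 := by
        refine (norm_sub_le _ _).trans ?_
        rw [norm_ee, norm_ee]; norm_num
      have h3 : ‖ee (m 0).th - ee (z 0).th‖ * ‖(m 0).pos - (z 0).pos‖ ≤ 2 * (S.r1 * r) :=
        mul_le_mul h2 hd0 (norm_nonneg _) (by norm_num)
      exact (abs_le.mp (h1.trans h3)).1
    | succ j ih =>
      intro hj
      exact ((ih (by omega)).trans (hfl0 j (by omega))).trans (hbn0 (j + 1) (by omega))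
  have hup : ∀ d : ℕ, ∀ j, j + d = n → Em (z j) (m j) ≤ 2 * (S.r1 * r) := by
    intro d
    induction d with
    | zero =>
      intro j hj
      have hj' : j = n := by omega
      subst hj'
      have h1 := abs_dt_le (ee (z j).bk - ee (m j).bk) ((m j).pos - (z j).pos)
      have h2 : ‖ee (z j).bk - ee (m j).bk‖ ≤ 2 := by
        refine (norm_sub_le _ _).trans ?_
        rw [norm_ee, norm_ee]; norm_num
      have h3 : ‖ee (z j).bk - ee (m j).bk‖ * ‖(m j).pos - (z j).pos‖ ≤ 2 * (S.r1 * r) :=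
        mul_le_mul h2 hdn (norm_nonneg _) (by norm_num)
      exact (abs_le.mp (h1.trans h3)).2
    | succ d ih =>
      intro j hj
      exact ((hbn0 j (by omega)).trans (hfl0 j (by omega))).trans (ih (j + 1) (by omega))
  -- consequences of not being near
  have hN' : S.a (z k).i + δ ≤ (z k).u ∧ (z k).u ≤ S.b (z k).i - δ ∧
      S.a (z (k + 1)).i + δ ≤ (z (k + 1)).u ∧ (z (k + 1)).u ≤ S.b (z (k + 1)).i - δ ∧
      |(z k).φ| ≤ Real.pi / 2 - δ ∧ |(z (k + 1)).φ| ≤ Real.pi / 2 - δ ∧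
      ∀ l, l ≠ (z k).i → l ≠ (z (k + 1)).i → ∀ p ∈ segment ℝ (z k).pos (z (k + 1)).pos,
        ∀ v ∈ Icc (S.a l) (S.b l), δ ≤ dist p (S.g l v) := by
    unfold Near at hN
    push Not at hN
    exact hN
  obtain ⟨n1, n2, n3, n4, n5, n6, n7⟩ := hN'
  have hcosge : ∀ x : ℝ, |x| ≤ Real.pi / 2 - δ → Real.sin δ ≤ Real.cos x := by
    intro x hx
    rw [← Real.cos_abs x, ← Real.cos_pi_div_two_sub]
    exact Real.cos_le_cos_of_nonneg_of_le_pi (abs_nonneg _) (by linarith) hx
  -- displacement at the two ends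
  have hdisp : ∀ j ≤ n, Real.sin δ ≤ Real.cos (z j).φ → ‖(m j).pos - (z j).pos‖ ≤ D := by
    intro j hj hcos
    rcases eq_or_ne j 0 with h | h
    · subst h; exact hd0.trans hrD
    rcases eq_or_ne j n with h' | h'
    · subst h'; exact hdn.trans hrD
    have h1 := hbn j hj
    have h2 : Ep (z j) (m j) ≤ 2 * (S.r1 * r) :=
      (hfl0 j (by omega)).trans (hup (n - (j + 1)) (j + 1) (by omega))
    have h3 : -(2 * (S.r1 * r)) ≤ Em (z j) (m j) := by
      obtain ⟨j', rfl⟩ : ∃ j', j = j' + 1 := ⟨j - 1, by omega⟩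
      exact (hlow j' (by omega)).trans (hfl0 j' (by omega))
    have h4 := (hmok j hj).cos_pos
    have h5 : 2 * S.κ * Real.sin δ * ‖(m j).pos - (z j).pos‖ ^ 2
        ≤ 2 * S.κ * (Real.cos (z j).φ + Real.cos (m j).φ) * ‖(m j).pos - (z j).pos‖ ^ 2 := by
      apply mul_le_mul_of_nonneg_right _ (by positivity)
      apply mul_le_mul_of_nonneg_left _ (by positivity)
      linarith
    have h6 : S.κ * Real.sin δ * ‖(m j).pos - (z j).pos‖ ^ 2 ≤ S.κ * Real.sin δ * D ^ 2 := by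
      nlinarith
    have h7 : ‖(m j).pos - (z j).pos‖ ^ 2 ≤ D ^ 2 := le_of_mul_le_mul_left h6 (by positivity)
    exact (sq_le_sq₀ (norm_nonneg _) hD0.le).mp h7
  have hdk := hdisp k (by omega) (hcosge _ n5)
  have hdk1 := hdisp (k + 1) (by omega) (hcosge _ n6)
  have hu : ∀ j ≤ n, ‖(m j).pos - (z j).pos‖ ≤ D → |(m j).u - (z j).u| ≤ δ / 4 := by
    intro j hj hd
    have h1 := (hpos j hj).1.trans hd
    have h2 := S.r0_pos
    have h3 : |(m j).u - (z j).u| = 2 / S.r0 * (S.r0 / 2 * |(m j).u - (z j).u|) := by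
      field_simp
    rw [h3]
    exact (mul_le_mul_of_nonneg_left h1 (by positivity)).trans hD2
  have huk := hu k (by omega) hdk
  have huk1 := hu (k + 1) (by omega) hdk1
  -- rough bounds of angles
  have hub : ∀ j ≤ n, |(m j).u - (z j).u| ≤ 1 / 4 := by
    intro j hj
    have h1 := (hzok j hj).1
    have h2 := (hmok j hj).1
    rw [← hi j hj] at h2
    have h3 := S.turn (z j).i
    rw [abs_le]
    constructor <;> linarith [h1.1, h1.2, h2.1, h2.2]
  have hφb : ∀ j ≤ n, |(m j).φ - (z j).φ| < Real.pi := by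
    intro j hj
    have h1 := abs_lt.mp (hzok j hj).2
    have h2 := abs_lt.mp (hmok j hj).2
    rw [abs_lt]
    constructor <;> linarith [h1.1, h1.2, h2.1, h2.2]
  have hthb : |(m k).th - (z k).th| < Real.pi + 1 / 4 := by
    have h1 := hub k (by omega)
    have h2 := hφb k (by omega)
    have h3 : (m k).th - (z k).th = ((m k).u - (z k).u) + ((m k).φ - (z k).φ) := by
      unfold St.th; ring
    rw [h3]
    exact lt_of_le_of_lt (abs_add_le _ _) (by linarith)
  have hbkb : |(m (k + 1)).bk - (z (k + 1)).bk| < Real.pi + 1 / 4 := by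
    have h1 := hub (k + 1) (by omega)
    have h2 := hφb (k + 1) (by omega)
    have h3 : (m (k + 1)).bk - (z (k + 1)).bk
        = ((m (k + 1)).u - (z (k + 1)).u) - ((m (k + 1)).φ - (z (k + 1)).φ) := by
      unfold St.bk; ring
    rw [h3]
    refine lt_of_le_of_lt (abs_sub _ _) (by linarith)
  -- the angle of the flight
  have hcos : 1 - Real.cos ((m k).th - (z k).th) ≤ c := by
    have h1 := hfl k hkn
    have h2 := hup (n - (k + 1)) (k + 1) (by omega)
    have h3 := hlow k hkn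
    have h4 := hFLEN _ _ (hz.1.2 k hkn) (Or.inl ⟨n1, n2⟩)
    have h5 : 0 ≤ len (m k) (m (k + 1)) := norm_nonneg _
    have h6 : 0 ≤ 1 - Real.cos ((m k).th - (z k).th) := by
      linarith [Real.cos_le_one ((m k).th - (z k).th)]
    have h7 : τ * (1 - Real.cos ((m k).th - (z k).th)) ≤
        (len (z k) (z (k + 1)) + len (m k) (m (k + 1))) * (1 - Real.cos ((m k).th - (z k).th)) :=
      mul_le_mul_of_nonneg_right (by linarith) h6
    have h8 : τ * (1 - Real.cos ((m k).th - (z k).th)) ≤ τ * c := by nlinarith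
    exact le_of_mul_le_mul_left h8 hτ
  have hth : |(m k).th - (z k).th| ≤ δ / 4 :=
    abs_le_of_sq_le_sq ((ang_small hthb hcos hc1).trans hc2) (by linarith) |> fun h => by
      exact h
  have hcos2 : Real.cos ((m (k + 1)).bk - (z (k + 1)).bk) = Real.cos ((m k).th - (z k).th) := by
    have h1 := (hz.1.2 k hkn).2.2.1
    have h2 := (hm.1.2 k hkn).2.2.1
    rw [← dt_ee_ee, ← dt_ee_ee, h1, h2, dt_neg_left, dt_neg_right, neg_neg]
  have hbk : |(m (k + 1)).bk - (z (k + 1)).bk| ≤ δ / 4 :=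
    abs_le_of_sq_le_sq ((ang_small hbkb (by rw [hcos2]; exact hcos) hc1).trans hc2) (by linarith)
  have hφk : |(m k).φ - (z k).φ| ≤ δ / 2 := by
    have h3 : (m k).φ - (z k).φ = ((m k).th - (z k).th) - ((m k).u - (z k).u) := by
      unfold St.th; ring
    rw [h3]
    exact (abs_sub _ _).trans (by linarith)
  have hφk1 : |(m (k + 1)).φ - (z (k + 1)).φ| ≤ δ / 2 := by
    have h3 : (m (k + 1)).φ - (z (k + 1)).φ
        = ((m (k + 1)).u - (z (k + 1)).u) - ((m (k + 1)).bk - (z (k + 1)).bk) := by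
      unfold St.bk; ring
    rw [h3]
    exact (abs_sub _ _).trans (by linarith)
  -- conclusion
  have hik := hi k (by omega)
  have hik1 := hi (k + 1) (by omega)
  rw [hik] at n1 n2
  rw [hik1] at n3 n4
  have a1 := abs_le.mp huk
  have a2 := abs_le.mp huk1
  intro hM
  unfold Near at hM
  rcases hM with h | h | h | h | h | h | h
  · linarith [a1.1, a1.2]
  · linarith [a1.1, a1.2]
  · linarith [a2.1, a2.2]
  · linarith [a2.1, a2.2]
  · have h1 : |(m k).φ| ≤ |(m k).φ - (z k).φ| + |(z k).φ| := by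
      have := abs_add_le ((m k).φ - (z k).φ) (z k).φ
      simpa using this
    linarith
  · have h1 : |(m (k + 1)).φ| ≤ |(m (k + 1)).φ - (z (k + 1)).φ| + |(z (k + 1)).φ| := by
      have := abs_add_le ((m (k + 1)).φ - (z (k + 1)).φ) (z (k + 1)).φ
      simpa using this
    linarith
  · obtain ⟨l, hl1, hl2, p, hp, v, hv, hd⟩ := h
    obtain ⟨α, β, hα, hβ, hαβ, rfl⟩ := hp
    have h1 := n7 l (by rw [hik]; exact hl1) (by rw [hik1]; exact hl2)
      (α • (z k).pos + β • (z (k + 1)).pos) ⟨α, β, hα, hβ, hαβ, rfl⟩ v hv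
    have h2 : dist (α • (z k).pos + β • (z (k + 1)).pos) (α • (m k).pos + β • (m (k + 1)).pos) ≤ D := by
      rw [dist_comm, dist_eq_norm]
      have h3 : α • (m k).pos + β • (m (k + 1)).pos - (α • (z k).pos + β • (z (k + 1)).pos)
          = α • ((m k).pos - (z k).pos) + β • ((m (k + 1)).pos - (z (k + 1)).pos) := by
        simp only [smul_sub]; abel
      rw [h3]
      refine (norm_add_le _ _).trans ?_
      rw [norm_smul, norm_smul, Real.norm_eq_abs, Real.norm_eq_abs, abs_of_nonneg hα,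
        abs_of_nonneg hβ]
      have h4 := mul_le_mul_of_nonneg_left hdk hα
      have h5 := mul_le_mul_of_nonneg_left hdk1 hβ
      have h6 : α * D + β * D = D := by rw [← add_mul, hαβ, one_mul]
      linarith
    have h3 := dist_triangle (α • (z k).pos + β • (z (k + 1)).pos)
      (α • (m k).pos + β • (m (k + 1)).pos) (S.g l v)
    linarith

end Pool.Agent.Helper42.DB.PkCLOSE
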