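import Pool.Agent.Helper42.DB.Goals3

set_option autoImplicit false

/-! Packet MKSYS of MP_48f005_an. -/

namespace Pool.Agent.Helper42.DB.PkMKSYS

open Set Filter Topology

lemma mono_of {v : ℕ → ℝ} {m : ℕ} (h : ∀ k < m, v k < v (k + 1)) :
    ∀ k l, k ≤ l → l ≤ m → v k ≤ v l := by
  intro k l hkl
  induction l, hkl using Nat.le_induction with
  | base => intro _; exact le_rfl
  | succ l hl ih => intro hm; exact (ih (by omega)).trans (h l (by omega)).le

lemma cover_of {v : ℕ → ℝ} {m : ℕ} (hm : 0 < m) {u : ℝ} (h0 : v 0 ≤ u) (h1 : u ≤ v m) :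
    ∃ k < m, u ∈ Icc (v k) (v (k + 1)) := by
  by_contra hc
  have hc' : ∀ k < m, v k ≤ u → v (k + 1) < u := by
    intro k hk hku
    by_contra h
    exact hc ⟨k, hk, hku, not_lt.mp h⟩
  have key : ∀ k, k ≤ m → v k ≤ u := by
    intro k
    induction k with
    | zero => intro _; exact h0
    | succ k ih => intro hk; exact (hc' k (by omega) (ih (by omega))).le
  obtain ⟨k, rfl⟩ : ∃ k, m = k + 1 := ⟨m - 1, by omega⟩
  have := hc' k (by omega) (key k (by omega))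
  linarith

lemma P_pos (C : CTab) (i : C.ι) : 0 < C.P i := sub_pos.2 (C.hAB i)

lemma per_g (C : CTab) (i : C.ι) (h : C.closed i) (n : ℤ) (u : ℝ) :
    C.g i (u + n * C.P i) = C.g i u := by
  have hp : Function.Periodic (C.g i) (C.P i) := fun u => (C.per i h).2 u
  exact hp.int_mul n u

lemma per_ee (C : CTab) (i : C.ι) (h : C.closed i) (n : ℤ) (u : ℝ) :
    ee (u + n * C.P i) = ee u := by
  obtain ⟨⟨k, hk⟩, _⟩ := C.per i h
  have h1 : u + n * C.P i = u + ((n * k : ℤ) : ℝ) * (2 * Real.pi) := by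
    unfold CTab.P; rw [hk]; push_cast; ring
  rw [h1]
  apply Complex.ext
  · exact Real.cos_add_int_mul_two_pi u (n * k)
  · exact Real.sin_add_int_mul_two_pi u (n * k)

lemma shift_to (C : CTab) (i : C.ι) (u c : ℝ) :
    ∃ n : ℤ, c ≤ u + n * C.P i ∧ u + n * C.P i < c + C.P i := by
  obtain ⟨n, hn, _⟩ := existsUnique_add_zsmul_mem_Ico (P_pos C i) u c
  simp only [zsmul_eq_mul] at hn
  exact ⟨n, hn.1, hn.2⟩

lemma norm_reg (C : CTab) (i : C.ι) (u : ℝ) (h : C.Rg i u) :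
    ∃ u', (C.A i ≤ u' ∧ u' < C.B i ∧ (¬C.closed i → C.A i < u')) ∧ C.g i u' = C.g i u ∧
      ee u' = ee u ∧ (¬C.closed i → u' = u) ∧ (C.closed i → ∃ n : ℤ, u' = u + n * C.P i) := by
  by_cases hc : C.closed i
  · obtain ⟨n, h1, h2⟩ := shift_to C i u (C.A i)
    refine ⟨u + n * C.P i, ⟨h1, ?_, fun h => absurd hc h⟩, per_g C i hc n u, per_ee C i hc n u,
      fun h => absurd hc h, fun _ => ⟨n, rfl⟩⟩
    have : C.A i + C.P i = C.B i := by unfold CTab.P; ring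
    linarith
  · rcases h with h | h
    · exact absurd h hc
    · exact ⟨u, ⟨h.1.le, h.2, fun _ => h.1⟩, rfl, rfl, fun _ => rfl, fun h => absurd h hc⟩

lemma norm_pt (C : CTab) (i : C.ι) (w : ℝ) (h : C.closed i ∨ (C.A i ≤ w ∧ w ≤ C.B i)) :
    ∃ w', (C.A i ≤ w' ∧ w' ≤ C.B i ∧ (C.closed i → w' < C.B i)) ∧ C.g i w' = C.g i w ∧
      (¬C.closed i → w' = w) ∧ (C.closed i → ∃ n : ℤ, w' = w + n * C.P i) := by
  by_cases hc : C.closed i
  · obtain ⟨n, h1, h2⟩ := shift_to C i w (C.A i)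
    have : C.A i + C.P i = C.B i := by unfold CTab.P; ring
    refine ⟨w + n * C.P i, ⟨h1, by linarith, fun _ => by linarith⟩, per_g C i hc n w,
      fun h => absurd hc h, fun _ => ⟨n, rfl⟩⟩
  · rcases h with h | h
    · exact absurd h hc
    · exact ⟨w, ⟨h.1, h.2, fun h' => absurd h' hc⟩, rfl, fun _ => rfl, fun h => absurd h hc⟩

/-- The subdivision data. -/
structure Dat (C : CTab) (D : Set ℂ) (μ : ℝ) where
  m : C.ι → ℕ
  v : C.ι → ℕ → ℝ
  mpos : ∀ i, 0 < m i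
  lt : ∀ i, ∀ k < m i, v i k < v i (k + 1)
  le : ∀ i, ∀ k < m i, v i (k + 1) - v i k ≤ μ
  arc : ∀ i, ¬C.closed i → v i 0 = C.A i ∧ v i (m i) = C.B i
  cl : ∀ i, C.closed i → v i (m i) = v i 0 + C.P i
  cut : ∀ i, ∀ k ≤ m i, (C.closed i ∨ (0 < k ∧ k < m i)) → C.g i (v i k) ∉ D

namespace Dat

variable {C : CTab} {D : Set ℂ} {μ : ℝ} (E : Dat C D μ)

/-- indices -/
abbrev I : Type := Σ i : C.ι, Fin (E.m i)

/-- left end -/
def a (x : E.I) : ℝ := E.v x.1 x.2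
/-- right end -/
def b (x : E.I) : ℝ := E.v x.1 (x.2 + 1)

lemma hab (x : E.I) : E.a x < E.b x := E.lt x.1 x.2 x.2.2

lemma mono (i : C.ι) {k l : ℕ} (h1 : k ≤ l) (h2 : l ≤ E.m i) : E.v i k ≤ E.v i l :=
  mono_of (E.lt i) k l h1 h2

lemma v0_le_a (x : E.I) : E.v x.1 0 ≤ E.a x := E.mono x.1 (Nat.zero_le _) x.2.2.le

lemma b_le_vm (x : E.I) : E.b x ≤ E.v x.1 (E.m x.1) := E.mono x.1 x.2.2 le_rfl

lemma rg (x : E.I) {u : ℝ} (hu : u ∈ Ioo (E.a x) (E.b x)) : C.Rg x.1 u := by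
  by_cases hc : C.closed x.1
  · exact Or.inl hc
  · have h := E.arc x.1 hc
    have h1 := E.v0_le_a x
    have h2 := E.b_le_vm x
    rw [h.1] at h1
    rw [h.2] at h2
    exact Or.inr ⟨lt_of_le_of_lt h1 hu.1, lt_of_lt_of_le hu.2 h2⟩

lemma pt (x : E.I) {u : ℝ} (hu : u ∈ Icc (E.a x) (E.b x)) :
    C.closed x.1 ∨ (C.A x.1 ≤ u ∧ u ≤ C.B x.1) := by
  by_cases hc : C.closed x.1
  · exact Or.inl hc
  · have h := E.arc x.1 hc
    have h1 := E.v0_le_a x
    have h2 := E.b_le_vm x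
    rw [h.1] at h1
    rw [h.2] at h2
    exact Or.inr ⟨le_trans h1 hu.1, le_trans hu.2 h2⟩

lemma bdry : frontier C.Y ⊆ ⋃ x : E.I, (C.crv x.1).G '' Icc (E.a x) (E.b x) := by
  intro z hz
  rw [C.bdry] at hz
  simp only [mem_iUnion, mem_image] at hz ⊢
  obtain ⟨i, u, hu, rfl⟩ := hz
  by_cases hc : C.closed i
  · obtain ⟨n, h1, h2⟩ := shift_to C i u (E.v i 0)
    obtain ⟨k, hk, hk'⟩ := cover_of (E.mpos i) h1 (by rw [E.cl i hc]; exact h2.le)
    exact ⟨⟨i, ⟨k, hk⟩⟩, _, hk', per_g C i hc n u⟩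
  · have h := E.arc i hc
    obtain ⟨k, hk, hk'⟩ := cover_of (v := E.v i) (E.mpos i) (u := u) (by rw [h.1]; exact hu.1)
      (by rw [h.2]; exact hu.2)
    exact ⟨⟨i, ⟨k, hk⟩⟩, _, hk', rfl⟩

lemma out (x : E.I) {u : ℝ} (hu : u ∈ Icc (E.a x) (E.b x)) : (C.crv x.1).G u ∉ C.Y := by
  obtain ⟨w, hw, hg, _⟩ := norm_pt C x.1 u (E.pt x hu)
  have h1 : C.g x.1 w ∈ frontier C.Y := by
    rw [C.bdry]
    exact mem_iUnion.2 ⟨x.1, w, ⟨hw.1, hw.2.1⟩, rfl⟩
  rw [hg, C.isOpen.frontier_eq] at h1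
  exact h1.2

lemma idx (i : C.ι) (k l : Fin (E.m i)) {u : ℝ} (hu : u ∈ Ioo (E.v i k) (E.v i (k + 1)))
    (hw : u ∈ Icc (E.v i l) (E.v i (l + 1))) : k = l := by
  rcases lt_trichotomy (k : ℕ) (l : ℕ) with h | h | h
  · have := E.mono i (show (k : ℕ) + 1 ≤ l from h) l.2.le
    linarith [hu.2, hw.1]
  · exact Fin.ext h
  · have := E.mono i (show (l : ℕ) + 1 ≤ k from h) k.2.le
    linarith [hu.1, hw.2]

lemma inj (x y : E.I) {u w : ℝ} (hu : u ∈ Ioo (E.a x) (E.b x)) (hw : w ∈ Icc (E.a y) (E.b y))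
    (h : (C.crv x.1).G u = (C.crv y.1).G w) : x = y ∧ u = w := by
  obtain ⟨u', hu1, hu2, _, hu3, hu4⟩ := norm_reg C x.1 u (E.rg x hu)
  obtain ⟨w', hw1, hw2, hw3, hw4⟩ := norm_pt C y.1 w (E.pt y hw)
  obtain ⟨hij, huw⟩ := C.simple x.1 y.1 u' w' hu1 hw1 (hu2.trans (h.trans hw2.symm))
  obtain ⟨i, k⟩ := x
  obtain ⟨j, l⟩ := y
  simp only at hij
  subst hij
  have key : u = w := by
    by_cases hc : C.closed i
    · obtain ⟨n, hn⟩ := hu4 hc
      obtain ⟨n', hn'⟩ := hw4 hc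
      simp only at hn hn' hc
      have h1 := E.v0_le_a ⟨i, k⟩
      have h2 := E.b_le_vm ⟨i, k⟩
      have h3 := E.v0_le_a ⟨i, l⟩
      have h4 := E.b_le_vm ⟨i, l⟩
      simp only at h1 h2 h3 h4
      rw [E.cl i hc] at h2 h4
      have hP := P_pos C i
      have h5 : u - w = ((n' - n : ℤ) : ℝ) * C.P i := by
        push_cast
        have : u + n * C.P i = w + n' * C.P i := by rw [← hn, ← hn', huw]
        linarith
      have h6 : ((n' - n : ℤ) : ℝ) < 1 := by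
        by_contra h7
        have h7 := not_lt.mp h7
        have h8 : C.P i ≤ ((n' - n : ℤ) : ℝ) * C.P i := by nlinarith
        have h9 := hu.2
        have h10 := hw.1
        linarith
      have h7 : (-1 : ℝ) < ((n' - n : ℤ) : ℝ) := by
        by_contra h7
        have h7 := not_lt.mp h7
        have h8 : ((n' - n : ℤ) : ℝ) * C.P i ≤ - C.P i := by nlinarith
        have h9 := hu.1
        have h10 := hw.2
        linarith
      have h8 : n' - n < 1 := by exact_mod_cast h6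
      have h9 : -1 < n' - n := by exact_mod_cast h7
      have h10 : n' - n = 0 := by omega
      rw [h10] at h5
      simp only [Int.cast_zero, zero_mul] at h5
      linarith
    · rw [← hu3 hc, ← hw3 hc, huw]
  subst key
  have := E.idx i k l hu hw
  subst this
  exact ⟨rfl, rfl⟩

lemma sub (x : E.I) : C.Sub x.1 (E.a x) (E.b x) := by
  refine ⟨E.hab x, fun hc => ?_⟩
  have h := E.arc x.1 hc
  have h1 := E.v0_le_a x
  have h2 := E.b_le_vm x
  rw [h.1] at h1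
  rw [h.2] at h2
  exact ⟨h1, h2⟩

lemma apart (x y : E.I) (hxy : x ≠ y) : C.Apart x.1 (E.a x) (E.b x) y.1 (E.a y) (E.b y) := by
  obtain ⟨i, k⟩ := x
  obtain ⟨j, l⟩ := y
  by_cases hij : i = j
  · subst hij
    have hkl : (k : ℕ) ≠ l := by
      intro h
      exact hxy (by rw [Fin.ext h])
    have h1 := E.v0_le_a ⟨i, k⟩
    have h2 := E.b_le_vm ⟨i, k⟩
    have h3 := E.v0_le_a ⟨i, l⟩
    have h4 := E.b_le_vm ⟨i, l⟩
    simp only at h1 h2 h3 h4
    have h5 : E.b ⟨i, k⟩ ≤ E.a ⟨i, l⟩ ∨ E.b ⟨i, l⟩ ≤ E.a ⟨i, k⟩ := by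
      rcases lt_or_gt_of_ne hkl with h | h
      · exact Or.inl (E.mono i (show (k : ℕ) + 1 ≤ l from h) l.2.le)
      · exact Or.inr (E.mono i (show (l : ℕ) + 1 ≤ k from h) k.2.le)
    right
    by_cases hc : C.closed i
    · right
      refine ⟨hc, ?_⟩
      rw [E.cl i hc] at h2 h4
      rcases h5 with h5 | h5
      · exact Or.inl ⟨h5, by linarith⟩
      · exact Or.inr ⟨h5, by linarith⟩
    · left
      exact ⟨hc, h5⟩
  · exact Or.inl hij

end Dat

lemma dist_le (c : Crv) {r1 : ℝ} (h : ∀ u, c.R u ≤ r1) (u v : ℝ) :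
    dist (c.G u) (c.G v) ≤ r1 * |u - v| := by
  have := Convex.norm_image_sub_le_of_norm_hasDerivWithin_le (f := c.G) (s := univ) (C := r1)
    (f' := fun u => (c.R u : ℝ) • tt u) (x := v) (y := u)
    (fun x _ => (c.der x).hasDerivWithinAt)
    (fun x _ => by
      rw [norm_smul, norm_tt, mul_one, Real.norm_eq_abs, abs_of_nonneg (c.nonneg x)]
      exact h x) convex_univ (mem_univ _) (mem_univ _)
  rw [dist_eq_norm]
  exact this

theorem thm (C : CTab) : G_LSIDE C → G_SEP C → G_BIG C → G_SUBD C → G_MKSYS C := by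
  intro hL hS hB hSub D hD
  obtain ⟨μ0, hμ0, hS⟩ := hS
  obtain ⟨ρ, hρ, hB⟩ := hB
  obtain ⟨μ, hμ, hμa, hμb, hμc⟩ : ∃ μ : ℝ, 0 < μ ∧ μ ≤ μ0 ∧ μ ≤ 1 / 4 ∧
      |C.r1| * μ ≤ ρ / 4 := by
    have h1 : 0 < |C.r1| + 1 := by positivity
    refine ⟨min (min μ0 (1 / 4)) (ρ / (4 * (|C.r1| + 1))),
      lt_min (lt_min hμ0 (by norm_num)) (by positivity),
      (min_le_left _ _).trans (min_le_left _ _), (min_le_left _ _).trans (min_le_right _ _), ?_⟩
    calc |C.r1| * min (min μ0 (1 / 4)) (ρ / (4 * (|C.r1| + 1)))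
        ≤ |C.r1| * (ρ / (4 * (|C.r1| + 1))) :=
          mul_le_mul_of_nonneg_left (min_le_right _ _) (abs_nonneg _)
      _ ≤ (|C.r1| + 1) * (ρ / (4 * (|C.r1| + 1))) :=
          mul_le_mul_of_nonneg_right (by linarith) (by positivity)
      _ = ρ / 4 := by field_simp
  have hE : ∃ E : Dat C D μ, True := by
    choose m v h1 h2 h3 h4 h5 using fun i => hSub D μ hD hμ i
    exact ⟨⟨m, v, h1, fun i k hk => (h2 i k hk).1, fun i k hk => (h2 i k hk).2, h3, h4, h5⟩,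
      trivial⟩
  obtain ⟨E, _⟩ := hE
  let _ := C.fin
  let _ : DecidableEq C.ι := Classical.decEq _
  refine ⟨{
    ι := E.I
    fin := inferInstance
    dec := inferInstance
    Y := C.Y
    isOpen_Y := C.isOpen
    bdd := C.bdd
    crv := fun x => C.crv x.1
    a := E.a
    b := E.b
    hab := E.hab
    turn := fun x => (E.le x.1 x.2 x.2.2).trans hμb
    r0 := C.r0
    r1 := C.r1
    r0_pos := C.r0_pos
    le_R := fun x u => C.le_R x.1 u
    R_le := fun x u => C.R_le x.1 u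
    bdry := E.bdry
    out := fun x u hu => E.out x hu
    inj := fun x y u hu w hw h => E.inj x y hu hw h
    sep := fun x y hxy => hS x.1 y.1 _ _ _ _ (E.sub x) (E.sub y) (E.apart x y hxy)
      ((E.le x.1 x.2 x.2.2).trans hμa) ((E.le y.1 y.2 y.2.2).trans hμa)
    front := ?_
    ρ := ρ
    ρ_pos := hρ
    big := hB
    small := ?_ }, rfl, ?_, ?_⟩
  · intro x u hu
    obtain ⟨δ, hδ, h⟩ := hL x.1 u (E.rg x hu) (min (u - E.a x) (E.b x - u))
      (lt_min (by linarith [hu.1]) (by linarith [hu.2]))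
    refine ⟨δ, hδ, fun z hz => ?_⟩
    obtain ⟨v, r, hv, _, hz, hr1, hr2⟩ := h z hz
    rcases lt_or_ge 0 r with h0 | h0
    · exact Or.inl (hr1 h0)
    · right
      have h3 := lt_of_lt_of_le hv (min_le_left _ _)
      have h4 := lt_of_lt_of_le hv (min_le_right _ _)
      rw [abs_lt] at h3 h4
      refine ⟨v, ⟨by linarith, by linarith⟩, -r, by linarith, ?_⟩
      rw [hz, neg_smul, sub_neg_eq_add]
  · intro x u hu v hv
    have h1 := dist_le (C.crv x.1) (C.R_le x.1) u v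
    have h2 : |u - v| ≤ μ := by
      have := E.le x.1 x.2 x.2.2
      have h3 : E.b x - E.a x ≤ μ := this
      rw [abs_le]
      constructor
      · linarith [hu.1, hv.2]
      · linarith [hu.2, hv.1]
    calc dist ((C.crv x.1).G u) ((C.crv x.1).G v) ≤ C.r1 * |u - v| := h1
      _ ≤ |C.r1| * |u - v| := mul_le_mul_of_nonneg_right (le_abs_self _) (abs_nonneg _)
      _ ≤ |C.r1| * μ := mul_le_mul_of_nonneg_left h2 (abs_nonneg _)
      _ ≤ ρ / 4 := hμc
  · intro x u hu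
    obtain ⟨u', h1, h2, h3, _⟩ := norm_reg C x.1 u (E.rg x hu)
    exact ⟨x.1, u', h1, by rw [h2, h3]⟩
  · rintro p N ⟨i, u, hu, hpN⟩ hpD
    obtain ⟨rfl, rfl⟩ := Prod.ext_iff.mp hpN
    simp only at hpD ⊢
    by_cases hc : C.closed i
    · obtain ⟨n, h1, h2⟩ := shift_to C i u (E.v i 0)
      obtain ⟨k, hk, hk'⟩ := cover_of (E.mpos i) h1 (by rw [E.cl i hc]; exact h2.le)
      refine ⟨⟨i, ⟨k, hk⟩⟩, u + n * C.P i, ⟨?_, ?_⟩, per_g C i hc n u, per_ee C i hc n u⟩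
      · refine lt_of_le_of_ne hk'.1 fun (h : E.v i k = u + n * C.P i) => ?_
        apply E.cut i k hk.le (Or.inl hc)
        rw [h, per_g C i hc n u]; exact hpD
      · refine lt_of_le_of_ne hk'.2 fun (h : u + n * C.P i = E.v i (k + 1)) => ?_
        apply E.cut i (k + 1) hk (Or.inl hc)
        rw [← h, per_g C i hc n u]; exact hpD
    · have h := E.arc i hc
      obtain ⟨k, hk, hk'⟩ := cover_of (v := E.v i) (E.mpos i) (u := u) (by rw [h.1]; exact hu.1)
        (by rw [h.2]; exact hu.2.1.le)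
      refine ⟨⟨i, ⟨k, hk⟩⟩, u, ⟨?_, ?_⟩, rfl, rfl⟩
      · refine lt_of_le_of_ne hk'.1 fun (h' : E.v i k = u) => ?_
        rcases Nat.eq_zero_or_pos k with h0 | h0
        · have h3 := hu.2.2 hc
          rw [h0, h.1] at h'
          linarith
        · apply E.cut i k hk.le (Or.inr ⟨h0, hk⟩)
          rw [h']; exact hpD
      · refine lt_of_le_of_ne hk'.2 fun (h' : u = E.v i (k + 1)) => ?_
        rcases Nat.lt_or_ge (k + 1) (E.m i) with h0 | h0
        · apply E.cut i (k + 1) hk (Or.inr ⟨by omega, h0⟩)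
          rw [← h']; exact hpD
        · have h3 : k + 1 = E.m i := by omega
          rw [h3, h.2] at h'
          linarith [hu.2.1]

end Pool.Agent.Helper42.DB.PkMKSYS
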